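import Pool.Agent.helper17.LQ.SpecQ

/-!
# lq:QL4, the L⁴ lemma (helper63)
-/

open MeasureTheory Set

set_option autoImplicit false

namespace Pool.Agent.LP

noncomputable section

theorem QL4_xk (n k : ℕ) : xk n (k + 1) = xk n k + 4 / 2 ^ n := by
  unfold xk; push_cast; ring

theorem QL4_vint (U : Set ℝ) (hU : MeasurableSet U) (a b : ℝ) (hab : a ≤ b) :
    volume.real (U ∩ Icc a b) = ∫ u in a..b, U.indicator (fun _ => (1 : ℝ)) u := by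
  rw [intervalIntegral.integral_of_le hab, ← integral_Icc_eq_integral_Ioc, integral_indicator hU, Measure.restrict_restrict hU,
    setIntegral_const, smul_eq_mul, mul_one]

theorem QL4_sumv (U : Set ℝ) (hU : MeasurableSet U) (hU2 : U ⊆ Icc (-2 : ℝ) 2) (n : ℕ) :
    ∑ k ∈ Finset.range (2 ^ n), volume.real (U ∩ Icc (xk n k) (xk n (k + 1))) = volume.real (U ∩ Icc (-2 : ℝ) (-2 + 4)) := by
  have h0 : ∀ k : ℕ, xk n k ≤ xk n (k + 1) := fun k => by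
    rw [QL4_xk]; have : (0 : ℝ) ≤ 4 / 2 ^ n := by positivity
    linarith
  have hint : ∀ a b : ℝ, IntervalIntegrable (U.indicator (fun _ => (1 : ℝ))) volume a b := by
    intro a b
    rw [intervalIntegrable_iff]
    exact (integrableOn_const (by simp [uIoc])).indicator hU
  have h1 := intervalIntegral.sum_integral_adjacent_intervals (a := xk n) (n := 2 ^ n) (μ := volume)
    (f := U.indicator (fun _ => (1 : ℝ))) (fun k _ => hint _ _)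
  rw [Finset.sum_congr rfl fun k _ => QL4_vint U hU _ _ (h0 k), h1]
  have h2 : xk n 0 = -2 := by simp [xk]
  have h3 : xk n (2 ^ n) = -2 + 4 := by
    unfold xk; push_cast; field_simp
  rw [h2, h3, QL4_vint U hU _ _ (by norm_num)]

theorem QL4_pairs (m : ℕ) (P : Finset (ℕ × ℕ)) (v : ℕ → ℝ) (V : ℝ) (hv : ∀ k, 0 ≤ v k) (hV0 : 0 ≤ V) (hV : ∀ k, k < m → v k ≤ V)
    (hP : ∀ z ∈ P, z.1 < m ∧ z.2 < m ∧ z.1 ≤ z.2 + 3 ∧ z.2 ≤ z.1 + 3) :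
    ∑ z ∈ P, v z.1 * v z.2 ≤ 7 * V * ∑ k ∈ Finset.range m, v k := by
  have h1 : ∑ z ∈ P, v z.1 * v z.2 ≤ ∑ z ∈ P, v z.1 * V :=
    Finset.sum_le_sum fun z hz => mul_le_mul_of_nonneg_left (hV _ (hP z hz).2.1) (hv _)
  refine h1.trans ?_
  have hsub : P ⊆ (Finset.range m ×ˢ Finset.range m).filter (fun z => z.1 ≤ z.2 + 3 ∧ z.2 ≤ z.1 + 3) := by
    intro z hz
    have := hP z hz
    simp only [Finset.mem_filter, Finset.mem_product, Finset.mem_range]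
    exact ⟨⟨this.1, this.2.1⟩, this.2.2⟩
  refine (Finset.sum_le_sum_of_subset_of_nonneg hsub fun z _ _ => mul_nonneg (hv _) hV0).trans ?_
  rw [Finset.sum_filter, Finset.sum_product, Finset.mul_sum]
  refine Finset.sum_le_sum fun k _ => ?_
  simp only
  rw [← Finset.sum_filter, Finset.sum_const, nsmul_eq_mul]
  have hc : ((Finset.range m).filter fun l => k ≤ l + 3 ∧ l ≤ k + 3).card ≤ 7 := by
    have : (Finset.range m).filter (fun l => k ≤ l + 3 ∧ l ≤ k + 3) ⊆ Finset.Icc (k - 3) (k + 3) := by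
      intro l hl
      simp only [Finset.mem_filter, Finset.mem_range, Finset.mem_Icc] at hl ⊢
      omega
    refine (Finset.card_le_card this).trans ?_
    rw [Nat.card_Icc]; omega
  have hc' : (((Finset.range m).filter fun l => k ≤ l + 3 ∧ l ≤ k + 3).card : ℝ) ≤ 7 := by exact_mod_cast hc
  have := mul_le_mul_of_nonneg_right hc' (mul_nonneg (hv k) hV0)
  linarith

theorem QL4_cs (n : ℕ) (a : ℕ → ℂ) (b : ℂ) : ‖∑ j ∈ Finset.range n, a j + b‖ ^ 2 ≤ (n + 1) * (∑ j ∈ Finset.range n, ‖a j‖ ^ 2 + ‖b‖ ^ 2) := by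
  obtain ⟨g, hg⟩ : ∃ g : ℕ → ℝ, g = fun j => if j < n then ‖a j‖ else ‖b‖ := ⟨_, rfl⟩
  have h1 : ∑ j ∈ Finset.range (n + 1), g j = ∑ j ∈ Finset.range n, ‖a j‖ + ‖b‖ := by
    rw [Finset.sum_range_succ]
    congr 1
    · refine Finset.sum_congr rfl fun j hj => ?_
      rw [hg]; simp [Finset.mem_range.mp hj]
    · rw [hg]; simp
  have h2 : ∑ j ∈ Finset.range (n + 1), g j ^ 2 = ∑ j ∈ Finset.range n, ‖a j‖ ^ 2 + ‖b‖ ^ 2 := by
    rw [Finset.sum_range_succ]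
    congr 1
    · refine Finset.sum_congr rfl fun j hj => ?_
      rw [hg]; simp [Finset.mem_range.mp hj]
    · rw [hg]; simp
  have h3 := sq_sum_le_card_mul_sum_sq (s := Finset.range (n + 1)) (f := g)
  rw [h1, h2, Finset.card_range] at h3
  have h4 : ‖∑ j ∈ Finset.range n, a j + b‖ ≤ ∑ j ∈ Finset.range n, ‖a j‖ + ‖b‖ :=
    (norm_add_le _ _).trans (by linarith [norm_sum_le (Finset.range n) a])
  refine (pow_le_pow_left₀ (norm_nonneg _) h4 2).trans ?_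
  refine h3.trans (le_of_eq ?_)
  push_cast; ring

/-- the choice of the number of scales -/
theorem QL4_n (N : ℝ) (hN : 1 ≤ N) : ∃ n : ℕ, (2 : ℝ) ^ n ≤ 4 * N ∧ 4 * N < 2 ^ (n + 1) ∧ (n : ℝ) ≤ 2 * (1 + Real.log N) := by
  obtain ⟨n, h1, h2⟩ := exists_nat_pow_near (y := (2 : ℝ)) (x := 4 * N) (by linarith) (by norm_num)
  refine ⟨n, h1, h2, ?_⟩
  have h3 : (n : ℝ) * Real.log 2 ≤ Real.log 4 + Real.log N := by
    rw [← Real.log_pow, ← Real.log_mul (by norm_num) (by linarith)]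
    exact Real.log_le_log (by positivity) h1
  have h4 : Real.log 4 = 2 * Real.log 2 := by
    rw [show (4 : ℝ) = 2 ^ 2 by norm_num, Real.log_pow]; push_cast; ring
  have h5 := Real.log_two_gt_d9
  have h6 : 0 ≤ Real.log N := Real.log_nonneg hN
  have h7 : ((n : ℝ) - 2) * Real.log 2 ≤ Real.log N := by rw [h4] at h3; linarith
  by_contra hc
  push Not at hc
  have h8 : 2 * Real.log N < (n : ℝ) - 2 := by linarith
  have h9 : 2 * Real.log N * Real.log 2 ≤ ((n : ℝ) - 2) * Real.log 2 := mul_le_mul_of_nonneg_right h8.le (by linarith)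
  have h10 : 0 < (n : ℝ) - 2 := by linarith
  nlinarith

/-- the bound of the volumes of the dyadic intervals -/
theorem QL4_vb (N K' h : ℝ) (U : Set ℝ) (hN : 1 ≤ N) (hK' : 1 ≤ K') (hh1 : h ≤ 1) (hU : MeasurableSet U)
    (hU2 : U ⊆ Icc (-2 : ℝ) 2) (hUQ : UQ N K' h U) (j : ℕ) (hj2 : (2 : ℝ) ^ j ≤ 4 * N) (P : Finset (ℕ × ℕ))
    (hP : ∀ z ∈ P, z.1 < 2 ^ j ∧ z.2 < 2 ^ j ∧ z.1 ≤ z.2 + 3 ∧ z.2 ≤ z.1 + 3) :
    ∑ z ∈ P, volume.real (U ∩ Icc (xk j z.1) (xk j (z.1 + 1))) * volume.real (U ∩ Icc (xk j z.2) (xk j (z.2 + 1))) ≤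
      28 * K' ^ 2 * N ^ (2 * (h - 1)) * (4 / 2 ^ j) ^ h := by
  have hN0 : 0 < N := by linarith
  have hθ0 : (0 : ℝ) < 4 / 2 ^ j := by positivity
  have hθ4 : (4 : ℝ) / 2 ^ j ≤ 4 := by
    refine div_le_self (by norm_num) ?_
    exact one_le_pow₀ (by norm_num)
  have hθN : 1 / N ≤ 4 / 2 ^ j := by
    rw [div_le_div_iff₀ hN0 (by positivity)]; linarith
  have h1N : 1 / N ≤ 4 := by
    rw [div_le_iff₀ hN0]; linarith
  obtain ⟨e, he⟩ : ∃ e, e = N ^ (h - 1) := ⟨_, rfl⟩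
  have he0 : 0 ≤ e := by rw [he]; positivity
  have hee : N ^ (2 * (h - 1)) = e * e := by
    rw [he, ← Real.rpow_add hN0]; congr 1; ring
  obtain ⟨q, hq⟩ : ∃ q : ℝ, q = (4 / 2 ^ j) ^ h := ⟨_, rfl⟩
  have hq0 : 0 ≤ q := by rw [hq]; positivity
  rw [hee, ← hq]
  have hV : ∀ k : ℕ, k < 2 ^ j → volume.real (U ∩ Icc (xk j k) (xk j (k + 1))) ≤ K' * e * q := by
    intro k _
    rw [QL4_xk, he, hq]
    exact hUQ _ _ hθN hθ4
  have h1 := QL4_pairs (2 ^ j) P (fun k => volume.real (U ∩ Icc (xk j k) (xk j (k + 1)))) (K' * e * q)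
    (fun k => measureReal_nonneg) (by positivity) hV hP
  refine h1.trans ?_
  rw [QL4_sumv U hU hU2 j]
  have h2 : volume.real (U ∩ Icc (-2 : ℝ) (-2 + 4)) ≤ K' * e * 4 := by
    refine (hUQ (-2) 4 h1N le_rfl).trans ?_
    rw [← he]
    refine mul_le_mul_of_nonneg_left ?_ (by positivity)
    have : (4 : ℝ) ^ h ≤ 4 ^ (1 : ℝ) := Real.rpow_le_rpow_of_exponent_le (by norm_num) hh1
    simpa using this
  have h3 : 7 * (K' * e * q) * volume.real (U ∩ Icc (-2 : ℝ) (-2 + 4)) ≤ 7 * (K' * e * q) * (K' * e * 4) :=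
    mul_le_mul_of_nonneg_left h2 (by positivity)
  refine h3.trans (le_of_eq ?_)
  ring

/-- one scale -/
theorem QL4_scale (h4 : QBM_stmt) (C1 CG CR : ℝ) (hC1 : 1 ≤ C1) (hCG : 1 ≤ CG) (hCR : 1 ≤ CR)
    (hG : ∀ (X X' t t' T0 N : ℝ) (n : ℕ), |X| ≤ 1 / 16 → |X'| ≤ 1 / 16 → 1 ≤ T0 → T0 ≤ N → T0 ≤ t → t ≤ C1 * N → T0 ≤ t' → t' ≤ C1 * N →
      gs X t X' t' n * dR N X t X' t' ≤ CG * (N / T0) ^ 2 ∧ gs X t X' t' n * (dR N X t X' t' * Real.sqrt (dR N X t X' t') * (4 / 2 ^ n)) ≤ CG * (N / T0) ^ 2)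
    (hR : ∀ (N K α θ : ℝ) (S : Finset (ℝ × ℝ)) (w : ℝ × ℝ → ℝ), 1 ≤ N → 0 ≤ K → 1 ≤ α → α ≤ 3 / 2 → 0 < θ → SQ N K α S → ∀ s ∈ S,
      (∀ s' ∈ S, dR N s.1 s.2 s'.1 s'.2 ≤ C1 * N ∧ w s' * dR N s.1 s.2 s'.1 s'.2 ≤ 1 ∧ w s' * (dR N s.1 s.2 s'.1 s'.2 * Real.sqrt (dR N s.1 s.2 s'.1 s'.2) * θ) ≤ 1) →
      (∑ s' ∈ S, w s') * θ ^ (2 * (α - 1)) ≤ CR * (1 + Real.log N) * K)
    (N T0 K K' α h : ℝ) (U : Set ℝ) (S : Finset (ℝ × ℝ)) (hT0 : 1 ≤ T0) (hTN : T0 ≤ N) (hK : 1 ≤ K) (hK' : 1 ≤ K') (hh1 : h ≤ 1)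
    (ha1 : 1 ≤ α) (ha2 : α ≤ 3 / 2) (hah : 2 * (α - 1) ≤ h) (hU : MeasurableSet U) (hU2 : U ⊆ Icc (-2 : ℝ) 2) (hUQ : UQ N K' h U) (hSQ : SQ N K α S)
    (hS : ∀ s ∈ S, |s.1| ≤ 1 / 16 ∧ T0 ≤ s.2 ∧ s.2 ≤ C1 * N) (j : ℕ) (hj1 : 1 ≤ j) (hj2 : (2 : ℝ) ^ j ≤ 4 * N) :
    ∑ s ∈ S, ‖∑ z ∈ PR j, kj U s.1 s.2 j z.1 * kj U s.1 s.2 j z.2‖ ^ 2 ≤
      56 * (CG * CR) * (1 + Real.log N) * (N / T0) ^ 2 * K * K' ^ 2 * N ^ (2 * (h - 1)) := by
  have hN : 1 ≤ N := hT0.trans hTN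
  have hN0 : 0 < N := by linarith
  have hT00 : 0 < T0 := by linarith
  have hL : 0 ≤ Real.log N := Real.log_nonneg hN
  have hθ0 : (0 : ℝ) < 4 / 2 ^ j := by positivity
  have hθ2 : (4 : ℝ) / 2 ^ j ≤ 2 := by
    rw [div_le_iff₀ (by positivity)]
    have : (2 : ℝ) ^ 1 ≤ 2 ^ j := pow_le_pow_right₀ (by norm_num) hj1
    linarith
  have hM0 : 0 < N / T0 := by positivity
  obtain ⟨q, hq⟩ : ∃ q : ℝ, q = (4 / 2 ^ j : ℝ) ^ (2 * (α - 1)) := ⟨_, rfl⟩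
  have hq0 : 0 < q := by rw [hq]; exact Real.rpow_pos_of_pos hθ0 _
  have hrow : ∀ s ∈ S, ∑ s' ∈ S, gs s.1 s.2 s'.1 s'.2 j ≤ CG * (N / T0) ^ 2 * (CR * (1 + Real.log N) * K) / q := by
    intro s hs
    obtain ⟨hs1, hs2, hs3⟩ := hS s hs
    have h5 := hR N K α (4 / 2 ^ j) S (fun s' => gs s.1 s.2 s'.1 s'.2 j / (CG * (N / T0) ^ 2)) hN (by linarith) ha1 ha2 hθ0 hSQ s hs ?_
    · rw [← hq, ← Finset.sum_div] at h5
      rw [le_div_iff₀ hq0]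
      rw [div_mul_eq_mul_div, div_le_iff₀ (by positivity)] at h5
      linarith
    · intro s' hs'
      obtain ⟨hs1', hs2', hs3'⟩ := hS s' hs'
      obtain ⟨g1, g2⟩ := hG s.1 s'.1 s.2 s'.2 T0 N j hs1 hs1' hT0 hTN hs2 hs3 hs2' hs3'
      refine ⟨?_, ?_, ?_⟩
      · unfold dR
        refine max_le ?_ (max_le ?_ ?_)
        · nlinarith
        · have h6 : |s.1 - s'.1| ≤ 1 := by
            refine (abs_sub _ _).trans ?_
            linarith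
          nlinarith [abs_nonneg (s.1 - s'.1)]
        · rw [abs_le]
          constructor <;> linarith
      · rw [div_mul_eq_mul_div, div_le_one (by positivity)]
        exact g1
      · rw [div_mul_eq_mul_div, div_le_one (by positivity)]
        exact g2
  have h6 := h4 U S j (CG * (N / T0) ^ 2 * (CR * (1 + Real.log N) * K) / q) hU hU2 (fun s hs => (hS s hs).1) (by positivity) hrow
  refine h6.trans ?_
  have h7 := QL4_vb N K' h U hN hK' hh1 hU hU2 hUQ j hj2 (PR j) (by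
    intro z hz
    simp only [PR, Finset.mem_filter, Finset.mem_product, Finset.mem_range] at hz
    refine ⟨hz.1.1, hz.1.2, ?_, ?_⟩ <;> omega)
  have h8 : ((4 : ℝ) / 2 ^ j) ^ h ≤ 2 * q := by
    have h9 : ((4 : ℝ) / 2 ^ j) ^ h = q * (4 / 2 ^ j) ^ (h - 2 * (α - 1)) := by
      rw [hq, ← Real.rpow_add hθ0]; congr 1; ring
    rw [h9, mul_comm 2 q]
    refine mul_le_mul_of_nonneg_left ?_ hq0.le
    refine (Real.rpow_le_rpow hθ0.le hθ2 (by linarith)).trans ?_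
    have : (2 : ℝ) ^ (h - 2 * (α - 1)) ≤ 2 ^ (1 : ℝ) := Real.rpow_le_rpow_of_exponent_le (by norm_num) (by linarith)
    simpa using this
  obtain ⟨W, hW⟩ : ∃ W : ℝ, W = N ^ (2 * (h - 1)) := ⟨_, rfl⟩
  have hW0 : 0 ≤ W := by rw [hW]; positivity
  rw [← hW] at h7 ⊢
  have h10 : 28 * K' ^ 2 * W * (4 / 2 ^ j) ^ h ≤ 28 * K' ^ 2 * W * (2 * q) := mul_le_mul_of_nonneg_left h8 (by positivity)
  refine (mul_le_mul_of_nonneg_left (h7.trans h10) (by positivity)).trans (le_of_eq ?_)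
  field_simp
  ring

/-- the pairs near the diagonal -/
theorem QL4_near (N K' h : ℝ) (U : Set ℝ) (hN : 1 ≤ N) (hK' : 1 ≤ K') (hh0 : 0 ≤ h) (hh1 : h ≤ 1) (hU : MeasurableSet U)
    (hU2 : U ⊆ Icc (-2 : ℝ) 2) (hUQ : UQ N K' h U) (n : ℕ) (hn1 : (2 : ℝ) ^ n ≤ 4 * N) (hn2 : 4 * N < 2 ^ (n + 1)) (f : ℕ → ℂ)
    (hf : ∀ k, ‖f k‖ ≤ 2 * volume.real (U ∩ Icc (xk n k) (xk n (k + 1)))) :
    ‖∑ z ∈ PA n, f z.1 * f z.2‖ ≤ 224 * K' ^ 2 * N ^ (2 * (h - 1)) * N ^ (-h) := by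
  have hN0 : 0 < N := by linarith
  have hθ0 : (0 : ℝ) < 4 / 2 ^ n := by positivity
  have h7 := QL4_vb N K' h U hN hK' hh1 hU hU2 hUQ n hn1 (PA n) (by
    intro z hz
    simp only [PA, Finset.mem_filter, Finset.mem_product, Finset.mem_range] at hz
    refine ⟨hz.1.1, hz.1.2, ?_, ?_⟩ <;> omega)
  have h8 : ‖∑ z ∈ PA n, f z.1 * f z.2‖ ≤ 4 * ∑ z ∈ PA n, volume.real (U ∩ Icc (xk n z.1) (xk n (z.1 + 1))) * volume.real (U ∩ Icc (xk n z.2) (xk n (z.2 + 1))) := by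
    refine (norm_sum_le _ _).trans ?_
    rw [Finset.mul_sum]
    refine Finset.sum_le_sum fun z _ => ?_
    rw [norm_mul]
    refine (mul_le_mul (hf _) (hf _) (norm_nonneg _) (by positivity)).trans (le_of_eq ?_)
    ring
  have h9 : ((4 : ℝ) / 2 ^ n) ^ h ≤ 2 * N ^ (-h) := by
    have h10 : (4 : ℝ) / 2 ^ n ≤ 2 / N := by
      rw [div_le_div_iff₀ (by positivity) hN0]
      rw [pow_succ] at hn2; linarith
    refine (Real.rpow_le_rpow hθ0.le h10 hh0).trans ?_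
    rw [Real.div_rpow (by norm_num) hN0.le, Real.rpow_neg hN0.le, div_eq_mul_inv]
    refine mul_le_mul_of_nonneg_right ?_ (by positivity)
    have : (2 : ℝ) ^ h ≤ 2 ^ (1 : ℝ) := Real.rpow_le_rpow_of_exponent_le (by norm_num) hh1
    simpa using this
  obtain ⟨W, hW⟩ : ∃ W : ℝ, W = N ^ (2 * (h - 1)) := ⟨_, rfl⟩
  have hW0 : 0 ≤ W := by rw [hW]; positivity
  rw [← hW] at h7 ⊢
  have h10 : 28 * K' ^ 2 * W * (4 / 2 ^ n) ^ h ≤ 28 * K' ^ 2 * W * (2 * N ^ (-h)) := mul_le_mul_of_nonneg_left h9 (by positivity)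
  have h11 := mul_le_mul_of_nonneg_left (h7.trans h10) (by norm_num : (0 : ℝ) ≤ 4)
  refine h8.trans (h11.trans (le_of_eq ?_))
  ring

/-- **Row QL4** -/
theorem QL4_proof (h1 : QGR_stmt) (h2 : QTL_stmt) (h3 : QKJ_stmt) (h4 : QBM_stmt) (h5 : QRS_stmt) : QL4_stmt := by
  intro C1 hC1
  obtain ⟨CG, hCG, hG⟩ := h1 C1 hC1
  obtain ⟨CR, hCR, hR⟩ := h5 C1 hC1
  refine ⟨336 * (CG * CR) + 150528 * C1 ^ 2, by nlinarith [mul_le_mul hCG hCR (by norm_num) (by linarith)], ?_⟩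
  intro N T0 K K' α h U S hT0 hTN hK hK' hh0 hh1 ha1 ha2 hah hU hU2 hUQ hSQ hS
  have hN : 1 ≤ N := hT0.trans hTN
  have hN0 : 0 < N := by linarith
  have hT00 : 0 < T0 := by linarith
  have hL : 0 ≤ Real.log N := Real.log_nonneg hN
  have hM : 1 ≤ N / T0 := by rw [le_div_iff₀ hT00]; linarith
  obtain ⟨n, hn1, hn2, hn3⟩ := QL4_n N hN
  obtain ⟨W, hW⟩ : ∃ W : ℝ, W = N ^ (2 * (h - 1)) := ⟨_, rfl⟩
  have hW0 : 0 ≤ W := by rw [hW]; positivity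
  obtain ⟨L, hLd⟩ : ∃ L : ℝ, L = 1 + Real.log N := ⟨_, rfl⟩
  have hL1 : 1 ≤ L := by rw [hLd]; linarith
  obtain ⟨M, hMd⟩ : ∃ M : ℝ, M = N / T0 := ⟨_, rfl⟩
  have hM1 : 1 ≤ M := by rw [hMd]; exact hM
  -- the terms
  obtain ⟨Z, hZ⟩ : ∃ Z : ℝ × ℝ → ℕ → ℂ, Z = fun s j => ∑ z ∈ PR (j + 1), kj U s.1 s.2 (j + 1) z.1 * kj U s.1 s.2 (j + 1) z.2 := ⟨_, rfl⟩
  obtain ⟨B, hB⟩ : ∃ B : ℝ × ℝ → ℂ, B = fun s => ∑ z ∈ PA n, kj U s.1 s.2 n z.1 * kj U s.1 s.2 n z.2 := ⟨_, rfl⟩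
  have hpt : ∀ s ∈ S, ‖kk U s.1 s.2‖ ^ 4 ≤ (n + 1) * (∑ j ∈ Finset.range n, ‖Z s j‖ ^ 2 + ‖B s‖ ^ 2) := by
    intro s hs
    obtain ⟨k1, k2, -⟩ := h3 U s.1 s.2 hU hU2 (hS s hs).1
    have k3 := h2 (fun n k => kj U s.1 s.2 n k) k2 n
    rw [k1] at k3
    have k4 : ‖kk U s.1 s.2‖ ^ 4 = ‖∑ j ∈ Finset.range n, Z s j + B s‖ ^ 2 := by
      rw [hZ, hB]
      simp only
      rw [← k3, norm_pow]; ring
    rw [k4]
    exact QL4_cs n _ _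
  have hscale : ∀ j ∈ Finset.range n, ∑ s ∈ S, ‖Z s j‖ ^ 2 ≤ 56 * (CG * CR) * L * M ^ 2 * K * K' ^ 2 * W := by
    intro j hj
    rw [hZ, hLd, hMd, hW]
    refine QL4_scale h4 C1 CG CR hC1 hCG hCR hG hR N T0 K K' α h U S hT0 hTN hK hK' hh1 ha1 ha2 hah hU hU2 hUQ hSQ hS (j + 1) (by omega) ?_
    refine le_trans ?_ hn1
    exact pow_le_pow_right₀ (by norm_num) (Finset.mem_range.mp hj)
  have hnear : ∀ s ∈ S, ‖B s‖ ^ 2 ≤ (224 * K' ^ 2 * W * N ^ (-h)) ^ 2 := by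
    intro s hs
    obtain ⟨-, -, k2⟩ := h3 U s.1 s.2 hU hU2 (hS s hs).1
    refine pow_le_pow_left₀ (norm_nonneg _) ?_ 2
    rw [hB, hW]
    exact QL4_near N K' h U hN hK' hh0 hh1 hU hU2 hUQ n hn1 hn2 (fun k => kj U s.1 s.2 n k) (fun k => k2 n k)
  have hcard : (S.card : ℝ) ≤ K * (C1 ^ 2 * N ^ 2) := by
    rcases S.eq_empty_or_nonempty with hS0 | ⟨s0, hs0⟩
    · rw [hS0]; simp; positivity
    · have hCN : 1 ≤ C1 * N := by nlinarith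
      have k1 := hSQ s0 hs0 (C1 * N) hCN
      have k2 : (S.filter fun s' : ℝ × ℝ => |s0.1 - s'.1| ≤ C1 * N / N ∧ |s0.2 - s'.2| ≤ C1 * N) = S := by
        refine Finset.filter_true_of_mem fun s' hs' => ?_
        obtain ⟨a1, a2, a3⟩ := hS s0 hs0
        obtain ⟨b1, b2, b3⟩ := hS s' hs'
        constructor
        · have : C1 * N / N = C1 := by field_simp
          rw [this]
          refine (abs_sub _ _).trans ?_
          linarith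
        · rw [abs_le]; constructor <;> linarith
      rw [k2] at k1
      refine k1.trans (mul_le_mul_of_nonneg_left ?_ (by linarith))
      rw [← mul_pow, ← Real.rpow_natCast (C1 * N) 2]
      exact Real.rpow_le_rpow_of_exponent_le hCN (by push_cast; linarith)
  have hBsum : ∑ s ∈ S, ‖B s‖ ^ 2 ≤ 50176 * C1 ^ 2 * K * K' ^ 4 * W := by
    refine (Finset.sum_le_sum hnear).trans ?_
    rw [Finset.sum_const, nsmul_eq_mul]
    refine (mul_le_mul_of_nonneg_right hcard (by positivity)).trans (le_of_eq ?_)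
    have k1 : (N ^ (-h)) ^ 2 * N ^ 2 * W = 1 := by
      rw [hW, ← Real.rpow_natCast (N ^ (-h)) 2, ← Real.rpow_natCast N 2, ← Real.rpow_mul hN0.le, ← Real.rpow_add hN0, ← Real.rpow_add hN0]
      have : -h * ((2 : ℕ) : ℝ) + ((2 : ℕ) : ℝ) + 2 * (h - 1) = 0 := by push_cast; ring
      rw [this, Real.rpow_zero]
    calc K * (C1 ^ 2 * N ^ 2) * (224 * K' ^ 2 * W * N ^ (-h)) ^ 2 = 50176 * C1 ^ 2 * K * K' ^ 4 * W * ((N ^ (-h)) ^ 2 * N ^ 2 * W) := by ring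
      _ = _ := by rw [k1, mul_one]
  have hZsum : ∑ s ∈ S, ∑ j ∈ Finset.range n, ‖Z s j‖ ^ 2 ≤ n * (56 * (CG * CR) * L * M ^ 2 * K * K' ^ 2 * W) := by
    rw [Finset.sum_comm]
    refine (Finset.sum_le_sum hscale).trans (le_of_eq ?_)
    rw [Finset.sum_const, nsmul_eq_mul, Finset.card_range]
  have htot : ∑ s ∈ S, ‖kk U s.1 s.2‖ ^ 4 ≤ (n + 1) * (n * (56 * (CG * CR) * L * M ^ 2 * K * K' ^ 2 * W) + 50176 * C1 ^ 2 * K * K' ^ 4 * W) := by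
    refine (Finset.sum_le_sum hpt).trans ?_
    rw [← Finset.mul_sum, Finset.sum_add_distrib]
    exact mul_le_mul_of_nonneg_left (add_le_add hZsum hBsum) (by positivity)
  rw [← hW, ← hLd, ← hMd]
  refine htot.trans ?_
  have hn4 : (n : ℝ) ≤ 2 * L := by rw [hLd]; exact hn3
  have hK24 : K' ^ 2 ≤ K' ^ 4 := pow_le_pow_right₀ hK' (by norm_num)
  have hM2 : 1 ≤ M ^ 2 := one_le_pow₀ hM1
  have hL2 : 1 ≤ L ^ 2 := one_le_pow₀ hL1
  have hG0 : 0 ≤ CG * CR := by positivity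
  have e1 : (n : ℝ) * (56 * (CG * CR) * L * M ^ 2 * K * K' ^ 2 * W) ≤ 2 * L * (56 * (CG * CR) * L * M ^ 2 * K * K' ^ 4 * W) := by
    refine mul_le_mul hn4 ?_ (by positivity) (by linarith)
    refine mul_le_mul_of_nonneg_right ?_ hW0
    exact mul_le_mul_of_nonneg_left hK24 (by positivity)
  have e2 : 50176 * C1 ^ 2 * K * K' ^ 4 * W ≤ L ^ 2 * M ^ 2 * (50176 * C1 ^ 2 * K * K' ^ 4 * W) := by
    refine le_mul_of_one_le_left (by positivity) ?_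
    nlinarith
  have e3 : (n : ℝ) + 1 ≤ 3 * L := by linarith
  have e4 := mul_le_mul e3 (add_le_add e1 e2) (by positivity) (by linarith)
  refine e4.trans (le_of_eq ?_)
  ring

end

end Pool.Agent.LP
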